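import Mathlib
import Pool.Agent.H44.PolyFun

set_option autoImplicit false

namespace Pool.Agent.Results.MP_119a45_an.FiniteRankProduct

open MeasureTheory Pool.Agent.H44
open scoped ENNReal

/-- Let `n ≥ 1` and let `f, g ∈ L^∞(𝔻)`, at least one of them radial. If the product `T_f T_g` of
Toeplitz operators on the polyanalytic Bergman space `A²_n` has finite rank (in particular if it is
zero), then `f = 0` a.e. or `g = 0` a.e. -/
theorem result (n : ℕ) (hn : 1 ≤ n) (f g : ℂ → ℂ) (hf : MemLp f ∞ areaD) (hg : MemLp g ∞ areaD)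
    (hrad : IsRadialFun f ∨ IsRadialFun g) (hfin : FiniteRankProduct n f g) :
    (∀ᵐ z ∂areaD, f z = 0) ∨ (∀ᵐ z ∂areaD, g z = 0) :=
  finite_rank_product_fun hn f g hf hg hrad hfin

end Pool.Agent.Results.MP_119a45_an.FiniteRankProduct
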